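import Mathlib

namespace Pool.Agent.Results.MP_71c7f5_ag.NoLefschetzCurve

open MvPolynomial

universe u

/-- The polynomial ring `K[x₀,…,x₄]`. -/
abbrev R (K : Type u) [Field K] : Type u := MvPolynomial (Fin 5) K

variable {K : Type u} [Field K]

/-- The degree `i` piece `A_i` of `A = R / J`: the classes of the forms of degree `i`. -/
def piece (J : Ideal (R K)) (i : ℕ) : Set (R K ⧸ J) :=
  Ideal.Quotient.mk J '' {p | p.IsHomogeneous i}

/-- Multiplication by `g`, as a map `A_i → A_j`, is injective or surjective. -/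
def MaxRank (J : Ideal (R K)) (g : R K ⧸ J) (i j : ℕ) : Prop :=
  Set.InjOn (fun a => g * a) (piece J i) ∨ Set.SurjOn (fun a => g * a) (piece J i) (piece J j)

/-- `R / J` has the weak Lefschetz property. -/
def HasWLP (J : Ideal (R K)) : Prop :=
  ∃ l ∈ piece J 1, ∀ i, MaxRank J l i (i + 1)

/-- `R / J` has the strong Lefschetz property. -/
def HasSLP (J : Ideal (R K)) : Prop :=
  ∃ l ∈ piece J 1, ∀ i k, 1 ≤ k → MaxRank J (l ^ k) i (i + k)

/-- `I` is the ideal of an integral (reduced and irreducible), nondegenerate, arithmetically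
Cohen-Macaulay curve in `ℙ⁴`: a homogeneous, saturated prime ideal without linear forms such that
`R / I` has Krull dimension two and depth two at the irrelevant ideal (it has a regular sequence
of two linear forms). -/
def IsIntegralACMCurve (I : Ideal (R K)) : Prop :=
  I.IsPrime ∧ (∀ f ∈ I, ∀ n, homogeneousComponent n f ∈ I) ∧
    (∀ f, (∀ i, X i * f ∈ I) → f ∈ I) ∧ (∀ f ∈ I, f.IsHomogeneous 1 → f = 0) ∧
    ringKrullDim (R K ⧸ I) = 2 ∧
    ∃ a b : R K, a.IsHomogeneous 1 ∧ b.IsHomogeneous 1 ∧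
      RingTheory.Sequence.IsRegular (R K ⧸ I) [a, b]

def ex : Fin 5 → ℕ := ![0, 1, 5, 21, 85]

noncomputable def phi (K : Type u) [Field K] : R K →ₐ[K] MvPolynomial (Fin 2) K :=
  aeval fun i => X 0 ^ (85 - ex i) * X 1 ^ ex i

noncomputable def W (u : Fin 5 →₀ ℕ) : Fin 2 →₀ ℕ :=
  Finsupp.single 0 (85 * u 0 + 84 * u 1 + 80 * u 2 + 64 * u 3) +
    Finsupp.single 1 (u 1 + 5 * u 2 + 21 * u 3 + 85 * u 4)

lemma W0 (u : Fin 5 →₀ ℕ) : W u 0 = 85 * u 0 + 84 * u 1 + 80 * u 2 + 64 * u 3 := by simp [W]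
lemma W1 (u : Fin 5 →₀ ℕ) : W u 1 = u 1 + 5 * u 2 + 21 * u 3 + 85 * u 4 := by simp [W]

lemma W_ext {a b : Fin 2 →₀ ℕ} (h0 : a 0 = b 0) (h1 : a 1 = b 1) : a = b := by
  ext i; fin_cases i
  · exact h0
  · exact h1

lemma deg5 (u : Fin 5 →₀ ℕ) : u.degree = u 0 + u 1 + u 2 + u 3 + u 4 := by
  rw [Finsupp.degree_eq_sum, Fin.sum_univ_five]

lemma mon_eq (u : Fin 5 →₀ ℕ) (c : K) : (monomial u c : R K) =
    C c * (X 0 ^ u 0 * X 1 ^ u 1 * X 2 ^ u 2 * X 3 ^ u 3 * X 4 ^ u 4) := by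
  rw [monomial_eq, Finsupp.prod_fintype _ _ (by simp), Fin.prod_univ_five]

lemma mon2_eq (u : Fin 2 →₀ ℕ) (c : K) : (monomial u c : MvPolynomial (Fin 2) K) =
    C c * (X 0 ^ u 0 * X 1 ^ u 1) := by
  rw [monomial_eq, Finsupp.prod_fintype _ _ (by simp), Fin.prod_univ_two]

lemma phi_X0 : phi K (X 0) = X 0 ^ 85 := by simp [phi, ex]
lemma phi_X1 : phi K (X 1) = X 0 ^ 84 * X 1 := by simp [phi, ex]
lemma phi_X2 : phi K (X 2) = X 0 ^ 80 * X 1 ^ 5 := by simp [phi, ex]
lemma phi_X3 : phi K (X 3) = X 0 ^ 64 * X 1 ^ 21 := by simp [phi, ex]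
lemma phi_X4 : phi K (X 4) = X 1 ^ 85 := by simp [phi, ex]

lemma phi_mon (u : Fin 5 →₀ ℕ) (c : K) : phi K (monomial u c) = monomial (W u) c := by
  rw [mon_eq, mon2_eq, W0, W1]
  simp only [map_mul, map_pow, phi_X0, phi_X1, phi_X2, phi_X3, phi_X4, algHom_C,
    algebraMap_eq]
  ring

lemma coeff_phi (f : R K) (m : Fin 2 →₀ ℕ) :
    coeff m (phi K f) = ∑ u ∈ f.support.filter (fun u => W u = m), coeff u f := by
  classical
  conv_lhs => rw [f.as_sum]
  rw [map_sum, coeff_sum, Finset.sum_filter]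
  refine Finset.sum_congr rfl fun u _ => ?_
  rw [phi_mon, coeff_monomial]

lemma ker_lemma {M : Type u} [AddCommGroup M] [Module K M] (L : R K →ₗ[K] M) (f : R K)
    (hf : phi K f = 0)
    (h : ∀ u ∈ f.support, ∀ v ∈ f.support, W u = W v → L (monomial u 1) = L (monomial v 1)) :
    L f = 0 := by
  classical
  have h1 : L f = ∑ u ∈ f.support, coeff u f • L (monomial u 1) := by
    conv_lhs => rw [f.as_sum]
    rw [map_sum]
    refine Finset.sum_congr rfl fun u _ => ?_
    rw [← map_smul, smul_monomial, smul_eq_mul, mul_one]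
  rw [h1, ← Finset.sum_fiberwise_of_maps_to (t := f.support.image W) (g := W)
    (fun u hu => Finset.mem_image_of_mem _ hu)]
  refine Finset.sum_eq_zero fun m hm => ?_
  obtain ⟨v, hv, rfl⟩ := Finset.mem_image.mp hm
  have h2 : ∑ u ∈ f.support.filter (fun u => W u = W v), coeff u f • L (monomial u 1)
      = ∑ u ∈ f.support.filter (fun u => W u = W v), coeff u f • L (monomial v 1) := by
    refine Finset.sum_congr rfl fun u hu => ?_
    rw [Finset.mem_filter] at hu
    rw [h u hu.1 v hv hu.2]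
  rw [h2, ← Finset.sum_smul, ← coeff_phi, hf, coeff_zero, zero_smul]

lemma W_deg {u v : Fin 5 →₀ ℕ} (h : W u = W v) : u.degree = v.degree := by
  have h0 := congrArg (fun a => a 0) h
  have h1 := congrArg (fun a => a 1) h
  simp only [W0, W1] at h0 h1
  rw [deg5, deg5]; omega

lemma ker_hom (f : R K) (hf : phi K f = 0) (n : ℕ) : phi K (homogeneousComponent n f) = 0 := by
  refine ker_lemma ((phi K).toLinearMap ∘ₗ homogeneousComponent n) f hf ?_
  intro u _ v _ h
  have hu := homogeneousComponent_of_mem (m := n)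
    ((mem_homogeneousSubmodule _ _).mpr (isHomogeneous_monomial (d := u) (1 : K) rfl))
  have hv := homogeneousComponent_of_mem (m := n)
    ((mem_homogeneousSubmodule _ _).mpr (isHomogeneous_monomial (d := v) (1 : K) rfl))
  simp only [LinearMap.comp_apply, hu, hv, W_deg h, AlgHom.toLinearMap_apply]
  split_ifs
  · rw [phi_mon, phi_mon, h]
  · rfl

lemma supp_deg {f : R K} {n : ℕ} (hf : f.IsHomogeneous n) {u : Fin 5 →₀ ℕ} (hu : u ∈ f.support) :
    u 0 + u 1 + u 2 + u 3 + u 4 = n := by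
  rw [← deg5]
  by_contra h
  exact (mem_support_iff.mp hu) (hf.coeff_eq_zero h)

lemma fext {u v : Fin 5 →₀ ℕ} (h0 : u 0 = v 0) (h1 : u 1 = v 1) (h2 : u 2 = v 2) (h3 : u 3 = v 3)
    (h4 : u 4 = v 4) : u = v := by
  ext i; fin_cases i
  exacts [h0, h1, h2, h3, h4]

lemma greedy {u v : Fin 5 →₀ ℕ} (h : W u = W v) (a1 : u 1 ≤ 4) (a2 : u 1 + 5 * u 2 ≤ 20)
    (a3 : u 1 + 5 * u 2 + 21 * u 3 ≤ 84) (b1 : v 1 ≤ 4) (b2 : v 1 + 5 * v 2 ≤ 20)
    (b3 : v 1 + 5 * v 2 + 21 * v 3 ≤ 84) : u = v := by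
  have h0 := congrArg (fun a => a 0) h
  have h1 := congrArg (fun a => a 1) h
  simp only [W0, W1] at h0 h1
  have e4 : u 4 = v 4 := by omega
  have e3 : u 3 = v 3 := by omega
  have e2 : u 2 = v 2 := by omega
  have e1 : u 1 = v 1 := by omega
  exact fext (by omega) e1 e2 e3 e4

lemma ker_low (f : R K) (hf : phi K f = 0) {n : ℕ} (hn : n ≤ 4) (hh : f.IsHomogeneous n) :
    f = 0 := by
  refine ker_lemma (LinearMap.id) f hf ?_
  intro u hu v hv h
  have h1 := supp_deg hh hu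
  have h2 := supp_deg hh hv
  rw [greedy h (by omega) (by omega) (by omega) (by omega) (by omega) (by omega)]

noncomputable def mnr (K : Type u) [Field K] : Fin 6 → R K :=
  ![X 0 ^ 4 * X 2 - X 1 ^ 4 * X 1, X 0 ^ 4 * X 3 - X 2 ^ 4 * X 1, X 0 ^ 4 * X 4 - X 3 ^ 4 * X 1,
    X 1 ^ 4 * X 3 - X 2 ^ 4 * X 2, X 1 ^ 4 * X 4 - X 3 ^ 4 * X 2, X 2 ^ 4 * X 4 - X 3 ^ 4 * X 3]

noncomputable def mk5 (a b c d e : ℕ) : Fin 5 →₀ ℕ := Finsupp.equivFunOnFinite.symm ![a, b, c, d, e]

@[simp] lemma mk5_0 (a b c d e : ℕ) : mk5 a b c d e 0 = a := rfl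
@[simp] lemma mk5_1 (a b c d e : ℕ) : mk5 a b c d e 1 = b := rfl
@[simp] lemma mk5_2 (a b c d e : ℕ) : mk5 a b c d e 2 = c := rfl
@[simp] lemma mk5_3 (a b c d e : ℕ) : mk5 a b c d e 3 = d := rfl
@[simp] lemma mk5_4 (a b c d e : ℕ) : mk5 a b c d e 4 = e := rfl

lemma normal5 (u : Fin 5 →₀ ℕ) (hu : u 0 + u 1 + u 2 + u 3 + u 4 = 5) :
    ∃ v : Fin 5 →₀ ℕ, W v = W u ∧ v 1 ≤ 4 ∧ v 1 + 5 * v 2 ≤ 20 ∧ v 1 + 5 * v 2 + 21 * v 3 ≤ 84 ∧
      (monomial v (1 : K) - monomial u 1 : R K) ∈ Submodule.span K (Set.range (mnr K)) := by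
  have key : ∀ (k : Fin 6) (a b c d e : ℕ), (monomial (mk5 a b c d e) (1 : K) - monomial u 1 : R K)
      = mnr K k → (monomial (mk5 a b c d e) (1 : K) - monomial u 1 : R K) ∈
        Submodule.span K (Set.range (mnr K)) := by
    intro k a b c d e h
    rw [h]; exact Submodule.subset_span ⟨k, rfl⟩
  by_cases c1 : u 1 = 5
  · have z0 : u 0 = 0 := by omega
    have z2 : u 2 = 0 := by omega
    have z3 : u 3 = 0 := by omega
    have z4 : u 4 = 0 := by omega
    refine ⟨mk5 4 0 1 0 0, W_ext (by simp [W0, *]) (by simp [W1, *]), by simp, by simp, by simp,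
      key 0 _ _ _ _ _ ?_⟩
    simp [mon_eq, mnr, *]; ring
  by_cases c2 : u 2 = 4 ∧ u 1 = 1
  · obtain ⟨z2, z1⟩ := c2
    have z0 : u 0 = 0 := by omega
    have z3 : u 3 = 0 := by omega
    have z4 : u 4 = 0 := by omega
    refine ⟨mk5 4 0 0 1 0, W_ext (by simp [W0, *]) (by simp [W1, *]), by simp, by simp, by simp,
      key 1 _ _ _ _ _ ?_⟩
    simp [mon_eq, mnr, *]; ring
  by_cases c3 : u 3 = 4 ∧ u 1 = 1
  · obtain ⟨z3, z1⟩ := c3
    have z0 : u 0 = 0 := by omega
    have z2 : u 2 = 0 := by omega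
    have z4 : u 4 = 0 := by omega
    refine ⟨mk5 4 0 0 0 1, W_ext (by simp [W0, *]) (by simp [W1, *]), by simp, by simp, by simp,
      key 2 _ _ _ _ _ ?_⟩
    simp [mon_eq, mnr, *]; ring
  by_cases c4 : u 2 = 5
  · have z0 : u 0 = 0 := by omega
    have z1 : u 1 = 0 := by omega
    have z3 : u 3 = 0 := by omega
    have z4 : u 4 = 0 := by omega
    refine ⟨mk5 0 4 0 1 0, W_ext (by simp [W0, *]) (by simp [W1, *]), by simp, by simp, by simp,
      key 3 _ _ _ _ _ ?_⟩
    simp [mon_eq, mnr, *]; ring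
  by_cases c5 : u 3 = 4 ∧ u 2 = 1
  · obtain ⟨z3, z2⟩ := c5
    have z0 : u 0 = 0 := by omega
    have z1 : u 1 = 0 := by omega
    have z4 : u 4 = 0 := by omega
    refine ⟨mk5 0 4 0 0 1, W_ext (by simp [W0, *]) (by simp [W1, *]), by simp, by simp, by simp,
      key 4 _ _ _ _ _ ?_⟩
    simp [mon_eq, mnr, *]; ring
  by_cases c6 : u 3 = 5
  · have z0 : u 0 = 0 := by omega
    have z1 : u 1 = 0 := by omega
    have z2 : u 2 = 0 := by omega
    have z4 : u 4 = 0 := by omega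
    refine ⟨mk5 0 0 4 0 1, W_ext (by simp [W0, *]) (by simp [W1, *]), by simp, by simp, by simp,
      key 5 _ _ _ _ _ ?_⟩
    simp [mon_eq, mnr, *]; ring
  exact ⟨u, rfl, by omega, by omega, by omega, by simp⟩

lemma ker_five (f : R K) (hf : phi K f = 0) (hh : f.IsHomogeneous 5) :
    f ∈ Submodule.span K (Set.range (mnr K)) := by
  rw [← Submodule.Quotient.mk_eq_zero]
  refine ker_lemma (Submodule.span K (Set.range (mnr K))).mkQ f hf ?_
  intro u hu v hv h
  obtain ⟨u', hu', a1, a2, a3, a4⟩ := normal5 (K := K) u (supp_deg hh hu)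
  obtain ⟨v', hv', b1, b2, b3, b4⟩ := normal5 (K := K) v (supp_deg hh hv)
  have e : u' = v' := greedy (by rw [hu', hv', h]) a1 a2 a3 b1 b2 b3
  subst e
  simp only [Submodule.mkQ_apply]
  rw [← (Submodule.Quotient.eq _).mpr a4, ← (Submodule.Quotient.eq _).mpr b4]

noncomputable abbrev II (K : Type u) [Field K] : Ideal (R K) := RingHom.ker (phi K)

lemma mem_II {f : R K} : f ∈ II K ↔ phi K f = 0 := RingHom.mem_ker

lemma reg_iff (I J : Ideal (R K)) (r : R K) :
    IsSMulRegular ((R K ⧸ I) ⧸ (J • ⊤ : Submodule (R K) (R K ⧸ I))) r ↔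
      ∀ f, r * f ∈ J ⊔ I → f ∈ J ⊔ I := by
  have hm : ∀ f : R K, Ideal.Quotient.mk I f ∈ (J • ⊤ : Submodule (R K) (R K ⧸ I)) ↔ f ∈ J ⊔ I := by
    intro f
    rw [Ideal.smul_top_eq_map, Submodule.restrictScalars_mem, Ideal.Quotient.algebraMap_eq,
      Ideal.mem_quotient_iff_mem_sup]
  rw [isSMulRegular_quotient_iff_mem_of_smul_mem]
  constructor
  · intro h f hf
    rw [← hm] at hf ⊢
    exact h _ hf
  · intro h x hx
    obtain ⟨f, rfl⟩ := Ideal.Quotient.mk_surjective x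
    rw [hm]
    apply h
    rw [← hm]
    exact hx

lemma isReg_iff (I : Ideal (R K)) (a b : R K) :
    RingTheory.Sequence.IsRegular (R K ⧸ I) [a, b] ↔
      (∀ f, a * f ∈ I → f ∈ I) ∧
      (∀ f, b * f ∈ Ideal.span {a} ⊔ I → f ∈ Ideal.span {a} ⊔ I) ∧
      (1 : R K) ∉ Ideal.span {a, b} ⊔ I := by
  have hm : ∀ (J : Ideal (R K)), (⊤ : Submodule (R K) (R K ⧸ I)) = J • ⊤ ↔ (1 : R K) ∈ J ⊔ I := by
    intro J
    rw [Ideal.smul_top_eq_map, ← Ideal.mem_quotient_iff_mem_sup, Ideal.Quotient.algebraMap_eq,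
      map_one, ← Ideal.eq_top_iff_one]
    constructor
    · intro h
      rw [Ideal.eq_top_iff_one]
      have : (1 : R K ⧸ I) ∈ (⊤ : Submodule (R K) (R K ⧸ I)) := trivial
      rw [h] at this
      exact this
    · intro h
      rw [h]; rfl
  have e2 : Ideal.ofList [a, b] = Ideal.span {a, b} := by
    simp [Ideal.ofList]; congr 1
  have e1 : Ideal.ofList [a] = Ideal.span {a} := Ideal.ofList_singleton a
  constructor
  · intro h
    have h0 := h.regular_mod_prev 0 (by simp)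
    have h1 := h.regular_mod_prev 1 (by simp)
    have h2 := h.top_ne_smul
    rw [reg_iff] at h0 h1
    refine ⟨by simpa using h0, by simpa [e1] using h1, ?_⟩
    rw [← e2, ← hm]; exact h2
  · rintro ⟨h0, h1, h2⟩
    refine ⟨⟨?_⟩, ?_⟩
    · intro i hi
      rw [reg_iff]
      have : i = 0 ∨ i = 1 := by simp at hi; omega
      rcases this with rfl | rfl
      · simpa using h0
      · simpa [e1] using h1
    · rw [Ne, hm, e2]; exact h2

lemma dim_le {A B : Type u} [CommRing A] [CommRing B] (f : A →+* B) (hf : f.IsIntegral) :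
    ringKrullDim B ≤ ringKrullDim A := by
  letI := f.toAlgebra
  haveI : Algebra.IsIntegral A B := ⟨hf⟩
  refine Order.krullDim_le_of_strictMono (fun p => PrimeSpectrum.comap f p) ?_
  intro p q h
  exact Ideal.IsIntegral.comap_lt_comap (R := A) (I := p.asIdeal) (J := q.asIdeal) h

lemma integral_of_gens {A B : Type u} {σ : Type} [CommRing A] [CommRing B] (f : A →+* B)
    (g : MvPolynomial σ K →+* B) (hg : Function.Surjective g)
    (hC : ∀ c : K, ∃ a, f a = g (C c)) (hX : ∀ i, ∃ a, f a = g (X i) ^ 85) : f.IsIntegral := by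
  intro b
  obtain ⟨p, rfl⟩ := hg b
  induction p using MvPolynomial.induction_on with
  | C c => obtain ⟨a, ha⟩ := hC c; rw [← ha]; exact f.isIntegralElem_map
  | add p q hp hq => rw [map_add]; exact hp.add _ hq
  | mul_X p i hp =>
    rw [map_mul]
    refine hp.mul _ ?_
    obtain ⟨a, ha⟩ := hX i
    refine ⟨Polynomial.X ^ 85 - Polynomial.C a, Polynomial.monic_X_pow_sub_C _ (by norm_num), ?_⟩
    simp [ha]

lemma dim2 : ringKrullDim (MvPolynomial (Fin 2) K) = 2 := by
  rw [MvPolynomial.ringKrullDim_of_isNoetherianRing, ringKrullDim_eq_zero_of_field]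
  simp

lemma dimII : ringKrullDim (R K ⧸ II K) = 2 := by
  apply le_antisymm
  · rw [← dim2 (K := K)]
    refine dim_le ((Ideal.Quotient.mk (II K)).comp
      (aeval (R := K) ![(X 0 : R K), X 4]).toRingHom) ?_
    refine integral_of_gens _ (Ideal.Quotient.mk (II K)) Ideal.Quotient.mk_surjective
      (fun c => ⟨C c, by simp⟩) ?_
    intro i
    refine ⟨X 0 ^ (85 - ex i) * X 1 ^ ex i, ?_⟩
    rw [← map_pow, RingHom.comp_apply, Ideal.Quotient.eq, mem_II]
    fin_cases i <;> simp [ex, phi_X0, phi_X1, phi_X2, phi_X3, phi_X4] <;> ring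
  · rw [← dim2 (K := K)]
    refine dim_le (Ideal.Quotient.lift (II K) (phi K).toRingHom (fun a ha => ha)) ?_
    refine integral_of_gens _ (RingHom.id _) Function.surjective_id
      (fun c => ⟨Ideal.Quotient.mk _ (C c), by simp⟩) ?_
    intro i
    fin_cases i
    · exact ⟨Ideal.Quotient.mk _ (X 0), by simp [phi_X0]⟩
    · exact ⟨Ideal.Quotient.mk _ (X 4), by simp [phi_X4]⟩

lemma coin (u1 u2 u3 u4 e : ℕ) (h : e + 85 = u1 + 5 * u2 + 21 * u3 + 85 * u4) :
    ∃ v1 v2 v3 v4 : ℕ, e = v1 + 5 * v2 + 21 * v3 + 85 * v4 ∧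
      v1 + v2 + v3 + v4 + 1 ≤ u1 + u2 + u3 + u4 := by
  refine ⟨e % 85 % 21 % 5, e % 85 % 21 / 5, e % 85 / 21, e / 85, by omega, ?_⟩
  omega

lemma mem_J (f : R K) : f ∈ Ideal.span {(X 0 : R K)} ⊔ II K ↔
    ∀ m ∈ (phi K f).support, ∃ u : Fin 5 →₀ ℕ, m = Finsupp.single 0 85 + W u := by
  classical
  constructor
  · intro hf m hm
    obtain ⟨a, ha, b, hb, rfl⟩ := Submodule.mem_sup.mp hf
    obtain ⟨g, rfl⟩ := Ideal.mem_span_singleton'.mp ha
    rw [map_add, mem_II.mp hb, add_zero, map_mul, phi_X0, X_pow_eq_monomial, mem_support_iff,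
      coeff_mul_monomial'] at hm
    split_ifs at hm with h
    · rw [mul_one, coeff_phi] at hm
      obtain ⟨u, hu, -⟩ := Finset.exists_ne_zero_of_sum_ne_zero hm
      refine ⟨u, ?_⟩
      rw [(Finset.mem_filter.mp hu).2, add_tsub_cancel_of_le h]
    · exact absurd rfl hm
  · intro h
    choose! U hU using h
    have e : f = (∑ m ∈ (phi K f).support, monomial (U m) (coeff m (phi K f))) * X 0 +
        (f - (∑ m ∈ (phi K f).support, monomial (U m) (coeff m (phi K f))) * X 0) := by ring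
    rw [e]
    refine Submodule.add_mem_sup (Ideal.mem_span_singleton'.mpr ⟨_, rfl⟩) ?_
    rw [mem_II, map_sub, map_mul, map_sum, phi_X0, Finset.sum_mul, sub_eq_zero]
    conv_lhs => rw [(phi K f).as_sum]
    refine Finset.sum_congr rfl fun m hm => ?_
    rw [phi_mon, X_pow_eq_monomial, monomial_mul, mul_one, add_comm, ← hU m hm]

lemma one_notMem (a b : R K) (ha : a.IsHomogeneous 1) (hb : b.IsHomogeneous 1) :
    (1 : R K) ∉ Ideal.span {a, b} ⊔ II K := by
  intro h
  have hle : Ideal.span {a, b} ⊔ II K ≤ RingHom.ker (constantCoeff : R K →+* K) := by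
    refine sup_le ?_ ?_
    · rw [Ideal.span_le]
      intro x hx
      rcases hx with rfl | rfl
      · exact ha.coeff_eq_zero (by simp)
      · exact hb.coeff_eq_zero (by simp)
    · intro x hx
      have h0 := ker_low _ (ker_hom x (mem_II.mp hx) 0) (n := 0) (by norm_num)
        (homogeneousComponent_isHomogeneous _ _)
      rw [homogeneousComponent_zero] at h0
      exact C_eq_zero.mp h0
  have := hle h
  simp at this

lemma reg04 : RingTheory.Sequence.IsRegular (R K ⧸ II K) [(X 0 : R K), X 4] := by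
  classical
  rw [isReg_iff]
  refine ⟨?_, ?_, one_notMem _ _ (isHomogeneous_X _ _) (isHomogeneous_X _ _)⟩
  · intro f hf
    rw [mem_II, map_mul, phi_X0] at hf
    rcases mul_eq_zero.mp hf with h | h
    · exact absurd h (pow_ne_zero _ (X_ne_zero _))
    · exact h
  · intro f hf
    rw [mem_J] at hf ⊢
    intro m hm
    obtain ⟨u, hu⟩ := hf (Finsupp.single 1 85 + m) (by
      rw [map_mul, phi_X4, X_pow_eq_monomial, mem_support_iff, coeff_monomial_mul, one_mul]
      exact mem_support_iff.mp hm)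
    have h0 := congrArg (fun a => a 0) hu
    have h1 := congrArg (fun a => a 1) hu
    simp [W0, W1] at h0 h1
    obtain ⟨v1, v2, v3, v4, e1, e2⟩ := coin (u 1) (u 2) (u 3) (u 4) (m 1) (by omega)
    refine ⟨mk5 (u 0 + u 1 + u 2 + u 3 + u 4 - 1 - (v1 + v2 + v3 + v4)) v1 v2 v3 v4,
      W_ext ?_ ?_⟩
    · simp [W0]; omega
    · simp [W1]; omega

lemma hc_mul {l : R K} (hl : l.IsHomogeneous 1) (n : ℕ) (P : R K) :
    homogeneousComponent (n + 1) (l * P) = l * homogeneousComponent n P := by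
  induction P using MvPolynomial.induction_on' with
  | monomial u c =>
    have hu : (monomial u c : R K).IsHomogeneous u.degree := isHomogeneous_monomial c rfl
    rw [homogeneousComponent_of_mem ((mem_homogeneousSubmodule _ _).mpr hu),
      homogeneousComponent_of_mem ((mem_homogeneousSubmodule _ _).mpr (hl.mul hu))]
    by_cases h : n = u.degree
    · rw [if_pos h, if_pos (by omega)]
    · rw [if_neg h, if_neg (by omega), mul_zero]
  | add p q hp hq => rw [mul_add, map_add, map_add, hp, hq, mul_add]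

lemma hc_self {f : R K} {n : ℕ} (hf : f.IsHomogeneous n) : homogeneousComponent n f = f :=
  homogeneousComponent_eq_self ((mem_homogeneousSubmodule _ _).mpr hf)

lemma syz {a b P Q : R K} (ha : a.IsHomogeneous 1) (hb : b.IsHomogeneous 1)
    (h0 : ∀ f, a * f ∈ II K → f ∈ II K)
    (h1 : ∀ f, b * f ∈ Ideal.span {a} ⊔ II K → f ∈ Ideal.span {a} ⊔ II K)
    (hP : P.IsHomogeneous 4) (hQ : Q.IsHomogeneous 4) (h : a * P + b * Q ∈ II K) :
    ∃ r, Q = a * r ∧ P = -(b * r) := by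
  have e : b * Q = (-P) * a + (a * P + b * Q) := by ring
  have h2 := h1 Q (e ▸ Submodule.add_mem_sup (Ideal.mem_span_singleton'.mpr ⟨_, rfl⟩) h)
  obtain ⟨x, hx, i, hi, e2⟩ := Submodule.mem_sup.mp h2
  obtain ⟨g, rfl⟩ := Ideal.mem_span_singleton'.mp hx
  have e3 := congrArg (homogeneousComponent 4) e2
  rw [map_add, mul_comm g a, hc_mul ha 3, hc_self hQ, ker_low _ (ker_hom i (mem_II.mp hi) 4) le_rfl
    (homogeneousComponent_isHomogeneous _ _), add_zero] at e3
  refine ⟨homogeneousComponent 3 g, e3.symm, ?_⟩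
  have h3 : P + b * homogeneousComponent 3 g ∈ II K := by
    apply h0
    have : a * (P + b * homogeneousComponent 3 g) = a * P + b * Q := by rw [← e3]; ring
    rw [this]; exact h
  have h4 := ker_low _ (mem_II.mp h3) le_rfl
    (hP.add (hb.mul (homogeneousComponent_isHomogeneous 3 g)))
  linear_combination h4

noncomputable def lin (p : Fin 5 → K) : R K :=
  C (p 0) * X 0 + C (p 1) * X 1 + C (p 2) * X 2 + C (p 3) * X 3 + C (p 4) * X 4

noncomputable def qua (p : Fin 5 → K) : R K :=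
  C (p 1) * X 0 ^ 4 + C (p 2) * X 1 ^ 4 + C (p 3) * X 2 ^ 4 + C (p 4) * X 3 ^ 4

lemma lin_rep {l : R K} (hl : l.IsHomogeneous 1) : ∃ p, l = lin p := by
  have h := (mem_homogeneousSubmodule _ _).mpr hl
  rw [homogeneousSubmodule_one_eq_span_X, Submodule.mem_span_range_iff_exists_fun] at h
  obtain ⟨p, rfl⟩ := h
  exact ⟨p, by simp [lin, Fin.sum_univ_five, smul_eq_C_mul]⟩

lemma qua_hom (p : Fin 5 → K) : (qua p).IsHomogeneous 4 :=
  (((isHomogeneous_C_mul_X_pow _ _ _).add (isHomogeneous_C_mul_X_pow _ _ _)).add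
    (isHomogeneous_C_mul_X_pow _ _ _)).add (isHomogeneous_C_mul_X_pow _ _ _)

lemma lin_hom (p : Fin 5 → K) : (lin p).IsHomogeneous 1 :=
  ((((isHomogeneous_C_mul_X _ _).add (isHomogeneous_C_mul_X _ _)).add
    (isHomogeneous_C_mul_X _ _)).add (isHomogeneous_C_mul_X _ _)).add (isHomogeneous_C_mul_X _ _)

lemma cross (p q : Fin 5 → K) (hp : p 0 = 0) (hq : q 0 = 0) :
    lin p * qua q - lin q * qua p ∈ II K := by
  rw [mem_II]
  simp only [lin, qua, hp, hq, map_add, map_sub, map_mul, map_pow, phi_X0, phi_X1, phi_X2, phi_X3,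
    phi_X4, algHom_C, map_zero]
  ring

lemma noninj {a b l : R K} (ha : a.IsHomogeneous 1) (hb : b.IsHomogeneous 1)
    (hl : l.IsHomogeneous 1) (hr : RingTheory.Sequence.IsRegular (R K ⧸ II K) [a, b]) :
    ∃ u : R K, u.IsHomogeneous 4 ∧ u ∉ II K ⊔ Ideal.span {a, b} ∧
      l * u ∈ II K ⊔ Ideal.span {a, b} := by
  obtain ⟨h0, h1, h2⟩ := (isReg_iff _ _ _).mp hr
  obtain ⟨p, rfl⟩ := lin_rep ha
  obtain ⟨q, rfl⟩ := lin_rep hb
  obtain ⟨s, rfl⟩ := lin_rep hl
  have hI1 : (1 : R K) ∉ II K := fun h => h2 (Submodule.mem_sup_right h)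
  have ha0 : lin p ≠ 0 := fun h => hI1 (h0 1 (by rw [h, zero_mul]; exact zero_mem _))
  have hpq : ¬ (p 0 = 0 ∧ q 0 = 0) := by
    rintro ⟨hp, hq⟩
    obtain ⟨r, hr1, -⟩ := syz ha hb h0 h1 (qua_hom q) (qua_hom p).neg
      (by have := cross p q hp hq; convert this using 1; ring)
    have e1 := congrArg (eval ![1, 0, 0, 0, 0]) hr1
    have e2 := congrArg (eval ![0, 1, 0, 0, 0]) hr1
    have e3 := congrArg (eval ![0, 0, 1, 0, 0]) hr1
    have e4 := congrArg (eval ![0, 0, 0, 1, 0]) hr1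
    simp [lin, qua, hp] at e1
    simp [lin, qua, hp, e1] at e2
    simp [lin, qua, hp, e1, e2] at e3
    simp [lin, qua, hp, e1, e2, e3] at e4
    exact ha0 (by simp [lin, *])
  set J := II K ⊔ Ideal.span {lin p, lin q} with hJ
  have haJ : lin p ∈ J := Submodule.mem_sup_right (Ideal.subset_span (by simp))
  have hbJ : lin q ∈ J := Submodule.mem_sup_right (Ideal.subset_span (by simp))
  set c : Fin 5 → K := fun i => q 0 * p i - p 0 * q i with hc
  have hc0 : c 0 = 0 := by simp [hc]; ring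
  have hw : lin c = C (q 0) * lin p - C (p 0) * lin q := by
    simp only [lin, hc, map_sub, map_mul]; ring
  have hwJ : lin c ∈ J := by
    rw [hw]; exact sub_mem (J.mul_mem_left _ haJ) (J.mul_mem_left _ hbJ)
  have hX : ∀ t : Fin 5 → K, t 0 = 0 → lin t * qua c ∈ J := by
    intro t ht
    have e : lin t * qua c = (lin t * qua c - lin c * qua t) + lin c * qua t := by ring
    rw [e]
    exact add_mem (Submodule.mem_sup_left (cross t c ht hc0)) (J.mul_mem_right _ hwJ)
  have hsplit : ∀ t : Fin 5 → K, lin t = C (t 0) * X 0 + lin (Function.update t 0 0) := by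
    intro t; simp [lin]; ring
  have hX0 : X 0 * qua c ∈ J := by
    have key : ∀ t : Fin 5 → K, t 0 ≠ 0 → lin t ∈ J → X 0 * qua c ∈ J := by
      intro t ht htJ
      have e : X 0 * qua c = C (t 0)⁻¹ * (lin t * qua c - lin (Function.update t 0 0) * qua c) := by
        rw [hsplit t]
        have : (C (t 0)⁻¹ : R K) * C (t 0) = 1 := by rw [← map_mul, inv_mul_cancel₀ ht, map_one]
        linear_combination (-(X 0 * qua c)) * this
      rw [e]
      exact J.mul_mem_left _ (sub_mem (J.mul_mem_right _ htJ) (hX _ (by simp)))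
    by_cases hp : p 0 = 0
    · exact key q (fun h => hpq ⟨hp, h⟩) hbJ
    · exact key p hp haJ
  refine ⟨qua c, qua_hom c, ?_, ?_⟩
  · intro hu
    obtain ⟨i, hi, x, hx, e⟩ := Submodule.mem_sup.mp hu
    obtain ⟨g1, g2, rfl⟩ := Ideal.mem_span_pair.mp hx
    have e3 := congrArg (homogeneousComponent 4) e
    rw [map_add, map_add, mul_comm g1, mul_comm g2, hc_mul ha 3, hc_mul hb 3, hc_self (qua_hom c),
      ker_low _ (ker_hom i (mem_II.mp hi) 4) le_rfl (homogeneousComponent_isHomogeneous _ _),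
      zero_add] at e3
    have hz : ∀ t : Fin 5 → K, t 0 = 0 → lin t * qua c = lin c * qua t := by
      intro t ht
      have e4 : lin t * qua c - lin c * qua t =
          lin p * (lin t * homogeneousComponent 3 g1 - C (q 0) * qua t) +
          lin q * (lin t * homogeneousComponent 3 g2 + C (p 0) * qua t) := by
        rw [← e3, hw]; ring
      obtain ⟨r, hr1, hr2⟩ := syz ha hb h0 h1
        (((lin_hom t).mul (homogeneousComponent_isHomogeneous 3 g1)).sub ((qua_hom t).C_mul _))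
        (((lin_hom t).mul (homogeneousComponent_isHomogeneous 3 g2)).add ((qua_hom t).C_mul _))
        (e4 ▸ cross t c ht hc0)
      rw [hr1, hr2] at e4
      linear_combination e4
    have e1 := congrArg (eval ![0, 1, 0, 0, 0]) (hz ![0, 0, 1, 0, 0] rfl)
    have e2 := congrArg (eval ![0, 0, 1, 0, 0]) (hz ![0, 0, 0, 1, 0] rfl)
    have e3' := congrArg (eval ![0, 0, 0, 1, 0]) (hz ![0, 0, 0, 0, 1] rfl)
    have e4 := congrArg (eval ![1, 0, 0, 0, 1]) (hz ![0, 1, 0, 0, 0] rfl)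
    simp [lin, qua, hc0] at e1 e2 e3' e4
    have hw0 : lin c = 0 := by simp [lin, hc0, ← e1, ← e2, ← e3', ← e4]
    rw [hw] at hw0
    by_cases hp : p 0 = 0
    · have hq : q 0 ≠ 0 := fun h => hpq ⟨hp, h⟩
      rw [hp, map_zero, zero_mul, sub_zero, mul_eq_zero, C_eq_zero] at hw0
      rcases hw0 with h | h
      · exact hq h
      · exact ha0 h
    · have e5 : lin q * 1 = (C (p 0)⁻¹ * C (q 0)) * lin p := by
        have : (C (p 0)⁻¹ : R K) * C (p 0) = 1 := by rw [← map_mul, inv_mul_cancel₀ hp, map_one]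
        linear_combination (-(C (p 0)⁻¹ : R K)) * hw0 - lin q * this
      have h3 := h1 1 (e5 ▸ Submodule.mem_sup_left (Ideal.mem_span_singleton'.mpr ⟨_, rfl⟩))
      have hle : Ideal.span {lin p} ⊔ II K ≤ Ideal.span {lin p, lin q} ⊔ II K :=
        sup_le_sup_right (Ideal.span_mono (by simp)) _
      exact h2 (hle h3)
  · rw [hsplit s, add_mul, mul_assoc]
    exact add_mem (J.mul_mem_left _ hX0) (hX _ (by simp))

lemma exists_sol {m n : ℕ} (h : m < n) (M : Fin m → Fin n → K) :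
    ∃ c : Fin n → K, c ≠ 0 ∧ ∀ r, ∑ j, M r j * c j = 0 := by
  have := LinearMap.ker_ne_bot_of_finrank_lt (f := Matrix.mulVecLin (Matrix.of M)) (by simpa)
  obtain ⟨c, hc, hc0⟩ := Submodule.exists_mem_ne_zero_of_ne_bot this
  refine ⟨c, hc0, fun r => ?_⟩
  have := congrFun (LinearMap.mem_ker.mp hc) r
  simpa [Matrix.mulVec, dotProduct] using this

lemma two_sol {m n : ℕ} (h : m + 1 < n) (M : Fin m → Fin n → K) :
    ∃ (c d : Fin n → K) (i j : Fin n), c i ≠ 0 ∧ d i = 0 ∧ d j ≠ 0 ∧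
      (∀ r, ∑ j, M r j * c j = 0) ∧ ∀ r, ∑ j, M r j * d j = 0 := by
  classical
  obtain ⟨c, hc0, hc⟩ := exists_sol (by omega) M
  obtain ⟨i, hi⟩ := Function.ne_iff.mp hc0
  obtain ⟨d, hd0, hd⟩ := exists_sol h (Fin.cons (Pi.single i 1) M)
  obtain ⟨j, hj⟩ := Function.ne_iff.mp hd0
  refine ⟨c, d, i, j, hi, ?_, hj, hc, fun r => by simpa using hd r.succ⟩
  simpa [Pi.single_apply] using hd 0

lemma nonsurj {a b l : R K} (ha : a.IsHomogeneous 1) (hb : b.IsHomogeneous 1)
    (hl : l.IsHomogeneous 1) :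
    ∃ h : R K, h.IsHomogeneous 5 ∧ ∀ P, h - l * P ∉ II K ⊔ Ideal.span {a, b} := by
  by_contra hcon
  push Not at hcon
  obtain ⟨p, rfl⟩ := lin_rep ha
  obtain ⟨q, rfl⟩ := lin_rep hb
  obtain ⟨s, rfl⟩ := lin_rep hl
  obtain ⟨α, β, i, j, hi, hi', hj, hα, hβ⟩ := two_sol (m := 3) (n := 5) (by norm_num) ![p, q, s]
  set ψ : R K →ₐ[K] Polynomial K :=
    aeval fun k => Polynomial.C (α k) + Polynomial.C (β k) * Polynomial.X with hψ
  have hψX : ∀ k, ψ (X k) = Polynomial.C (α k) + Polynomial.C (β k) * Polynomial.X := by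
    intro k; simp [hψ]
  have hψC : ∀ c : K, ψ (C c) = Polynomial.C c := by intro c; simp [hψ]
  have hlin : ∀ t : Fin 5 → K, ψ (lin t) =
      Polynomial.C (∑ j, t j * α j) + Polynomial.C (∑ j, t j * β j) * Polynomial.X := by
    intro t
    simp only [lin, map_add, map_mul, hψX, hψC, Fin.sum_univ_five]; ring
  have z1 : ψ (lin p) = 0 := by
    rw [hlin, show ∑ j, p j * α j = 0 from hα 0, show ∑ j, p j * β j = 0 from hβ 0]; simp
  have z2 : ψ (lin q) = 0 := by
    rw [hlin, show ∑ j, q j * α j = 0 from hα 1, show ∑ j, q j * β j = 0 from hβ 1]; simp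
  have z3 : ψ (lin s) = 0 := by
    rw [hlin, show ∑ j, s j * α j = 0 from hα 2, show ∑ j, s j * β j = 0 from hβ 2]; simp
  set T := Submodule.span K (Set.range fun k => ψ (mnr K k)) with hT
  have hall : ∀ h : R K, h.IsHomogeneous 5 → ψ h ∈ T := by
    intro h hh
    obtain ⟨P, hP⟩ := hcon h hh
    obtain ⟨i, hi, x, hx, e⟩ := Submodule.mem_sup.mp hP
    obtain ⟨g1, g2, rfl⟩ := Ideal.mem_span_pair.mp hx
    have e3 := congrArg (fun f => ψ (homogeneousComponent 5 f)) e
    simp only [map_add, map_sub, mul_comm g1, mul_comm g2, hc_mul ha 4, hc_mul hb 4, hc_mul hl 4,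
      hc_self hh, map_mul, z1, z2, z3, zero_mul, add_zero, sub_zero] at e3
    rw [← e3]
    have h5 := ker_five _ (ker_hom i (mem_II.mp hi) 5) (homogeneousComponent_isHomogeneous _ _)
    have := Submodule.mem_map_of_mem (f := ψ.toLinearMap) h5
    rw [Submodule.map_span, ← Set.range_comp] at this
    exact this
  have hy : ψ (C (α i)⁻¹ * X i) = 1 := by
    rw [map_mul, hψC, hψX, hi', map_zero, zero_mul, add_zero, ← map_mul, inv_mul_cancel₀ hi, map_one]
  have hz : ψ (C (β j)⁻¹ * (X j - C (α j) * (C (α i)⁻¹ * X i))) = Polynomial.X := by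
    rw [map_mul, map_sub, map_mul ψ (C (α j)), hy, hψC, hψC, hψX, mul_one, add_sub_cancel_left,
      ← mul_assoc, ← map_mul, inv_mul_cancel₀ hj, map_one, one_mul]
  have hyh : (C (α i)⁻¹ * X i : R K).IsHomogeneous 1 := isHomogeneous_C_mul_X _ _
  have hzh : (C (β j)⁻¹ * (X j - C (α j) * (C (α i)⁻¹ * X i)) : R K).IsHomogeneous 1 :=
    ((isHomogeneous_X _ _).sub (hyh.C_mul _)).C_mul _
  have hXk : ∀ k : Fin 6, (Polynomial.X ^ (k : ℕ) : Polynomial K) ∈ T := by
    intro k
    have := hall _ (by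
      have := (hyh.pow (5 - k)).mul (hzh.pow k)
      rwa [show 1 * (5 - (k : ℕ)) + 1 * k = 5 by omega] at this)
    rwa [map_mul, map_pow, map_pow, hy, hz, one_pow, one_mul] at this
  have hli : LinearIndependent K fun k : Fin 6 => (⟨_, hXk k⟩ : T) := by
    apply LinearIndependent.of_comp T.subtype
    have := (Polynomial.basisMonomials K).linearIndependent.comp (fun k : Fin 6 => (k : ℕ))
      Fin.val_injective
    convert this using 1
    funext k
    simp [Polynomial.monomial_one_right_eq_X_pow]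
  haveI : Module.Finite K T := Module.Finite.span_of_finite K (Set.finite_range _)
  have h6 := hli.fintype_card_le_finrank
  have hli2 : LinearIndependent K fun k => ψ (mnr K k) :=
    linearIndependent_iff_card_le_finrank_span.mpr h6
  obtain ⟨c, d, i', j', h1, h2, h3, hc, hd⟩ := two_sol (K := K) (m := 2) (n := 4) (by norm_num)
    ![fun k => α k.succ, fun k => β k.succ]
  have w1 : ψ (lin ![0, c 0, c 1, c 2, c 3]) = 0 := by
    have a1 := hc 0
    have a2 := hc 1
    simp [Fin.sum_univ_four] at a1 a2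
    rw [hlin, show ∑ j, ![0, c 0, c 1, c 2, c 3] j * α j = 0 by
        simp [Fin.sum_univ_five]; linear_combination a1,
      show ∑ j, ![0, c 0, c 1, c 2, c 3] j * β j = 0 by
        simp [Fin.sum_univ_five]; linear_combination a2]
    simp
  have w2 : ψ (lin ![0, d 0, d 1, d 2, d 3]) = 0 := by
    have a1 := hd 0
    have a2 := hd 1
    simp [Fin.sum_univ_four] at a1 a2
    rw [hlin, show ∑ j, ![0, d 0, d 1, d 2, d 3] j * α j = 0 by
        simp [Fin.sum_univ_five]; linear_combination a1,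
      show ∑ j, ![0, d 0, d 1, d 2, d 3] j * β j = 0 by
        simp [Fin.sum_univ_five]; linear_combination a2]
    simp
  have hrel := Fintype.linearIndependent_iff.mp hli2
    ![c 0 * d 1 - c 1 * d 0, c 0 * d 2 - c 2 * d 0, c 0 * d 3 - c 3 * d 0,
      c 1 * d 2 - c 2 * d 1, c 1 * d 3 - c 3 * d 1, c 2 * d 3 - c 3 * d 2] (by
      have e : ∑ k : Fin 6, ![c 0 * d 1 - c 1 * d 0, c 0 * d 2 - c 2 * d 0, c 0 * d 3 - c 3 * d 0,
          c 1 * d 2 - c 2 * d 1, c 1 * d 3 - c 3 * d 1, c 2 * d 3 - c 3 * d 2] k • mnr K k =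
          qua ![0, c 0, c 1, c 2, c 3] * lin ![0, d 0, d 1, d 2, d 3] - qua ![0, d 0, d 1, d 2, d 3] * lin ![0, c 0, c 1, c 2, c 3] := by
        simp only [Fin.sum_univ_six, mnr, qua, lin, smul_eq_C_mul]
        simp
        ring
      simp only [← map_smul]
      rw [← map_sum, e, map_sub, map_mul, map_mul, w1, w2]; simp)
  have r0 := hrel 0
  have r1 := hrel 1
  have r2 := hrel 2
  have r3 := hrel 3
  have r4 := hrel 4
  have r5 := hrel 5
  simp at r0 r1 r2 r3 r4 r5
  have key : ∀ x y : Fin 4, c x * d y - c y * d x = 0 := by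
    intro x y
    fin_cases x <;> fin_cases y <;> simp <;>
      first | ring1 | linear_combination r0 | linear_combination r1 | linear_combination r2 | linear_combination r3 | linear_combination r4 | linear_combination r5 | linear_combination -r0 | linear_combination -r1 | linear_combination -r2 | linear_combination -r3 | linear_combination -r4 | linear_combination -r5
  have := key i' j'
  rw [h2, mul_zero, sub_zero] at this
  exact mul_ne_zero h1 h3 this

lemma notWLP {a b : R K} (ha : a.IsHomogeneous 1) (hb : b.IsHomogeneous 1)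
    (hr : RingTheory.Sequence.IsRegular (R K ⧸ II K) [a, b]) :
    ¬ HasWLP (II K ⊔ Ideal.span {a, b}) := by
  rintro ⟨_, ⟨l, hl, rfl⟩, h⟩
  rcases h 4 with h | h
  · obtain ⟨u, hu, h1, h2⟩ := noninj ha hb hl hr
    apply h1
    rw [← Ideal.Quotient.eq_zero_iff_mem] at h2 ⊢
    refine h ⟨u, hu, rfl⟩ ⟨0, isHomogeneous_zero _ _ _, rfl⟩ ?_
    simp only [← map_mul, h2, map_zero, mul_zero]
  · obtain ⟨f, hf, h1⟩ := nonsurj ha hb hl
    obtain ⟨_, ⟨P, -, rfl⟩, e⟩ := h ⟨f, hf, rfl⟩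
    apply h1 P
    rw [← Ideal.Quotient.eq, map_mul]
    exact e.symm

theorem result (K : Type u) [Field K] :
    ∃ I : Ideal (R K), IsIntegralACMCurve I ∧
      ∀ a b : R K, a.IsHomogeneous 1 → b.IsHomogeneous 1 →
        RingTheory.Sequence.IsRegular (R K ⧸ I) [a, b] →
        ¬ HasWLP (I ⊔ Ideal.span {a, b}) ∧ ¬ HasSLP (I ⊔ Ideal.span {a, b}) := by
  refine ⟨II K, ⟨RingHom.ker_isPrime _, fun f hf n => ker_hom f hf n, ?_,
    fun f hf h => ker_low f hf (by norm_num) h, dimII,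
    X 0, X 4, isHomogeneous_X _ _, isHomogeneous_X _ _, reg04⟩, ?_⟩
  · intro f hf
    exact ((isReg_iff _ _ _).mp reg04).1 f (hf 0)
  · intro a b ha hb hr
    refine ⟨notWLP ha hb hr, ?_⟩
    rintro ⟨l, hl, h⟩
    exact notWLP ha hb hr ⟨l, hl, fun i => by simpa using h i 1 le_rfl⟩

end Pool.Agent.Results.MP_71c7f5_ag.NoLefschetzCurve
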